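import Pool.Agent.X269.EF.Block
import Pool.Agent.Y920.EP.FieldP
import Pool.Agent.Y98.EP.PCD
import Pool.Agent.Y447.EP.WB
import Pool.Agent.Y232.EP.Coarse
import Pool.Agent.Y349.EP.Symm
import Pool.Agent.Y349.EP.NG

set_option autoImplicit false

/-! # Transitive norm groups, `p` odd: the valuation ring -/

namespace Pool.Agent.X269.EF

open Pool.Agent.Y920.EP

/-- from rigid pairs to valuation rings -/
theorem ring_of_RP {p : ℕ} (hp : p.Prime) (hp2 : p ≠ 2) {F : Type} [Field F] (hpF : (p : F) ≠ 0)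
    {T K : Subgroup Fˣ} (hT : ∀ x : Fˣ, x ∈ T ↔ ∃ y : Fˣ, x = y ^ p) (hRP : RP T K) :
    ∃ O : ValuationSubring F, O.unitGroup ≤ K ∧ Pw p O := by
  have hodd : Odd p := hp.odd_of_ne_two hp2
  have hsq : ∀ x : Fˣ, x * x ∈ K → x ∈ K := by
    intro x hx
    obtain ⟨m, hm⟩ := hodd
    have h1 : x = (x * x) ^ (m + 1) * (x ^ p)⁻¹ := by
      rw [← pow_two, ← pow_mul, show 2 * (m + 1) = p + 1 by omega, pow_succ]
      rw [mul_comm, inv_mul_cancel_left]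
    rw [h1]
    exact mul_mem (pow_mem hx _) (inv_mem (hRP.le ((hT _).2 ⟨x, rfl⟩)))
  have hP := Pool.Agent.Y98.EP.t_PCD F T _ hRP hsq
  obtain ⟨O, hO⟩ := Pool.Agent.Y447.EP.t_WB' F T _ hRP hP
  obtain ⟨O', -, hpO, hO'⟩ := Pool.Agent.Y232.EP.t_COARSE' F p hp hpF T _ hT hRP.le O hO
  refine ⟨O', ?_, hpO, hpF, ?_⟩
  · intro u hu
    refine hO'.units u ?_ ?_
    · rw [← ValuationSubring.valuation_le_one_iff]
      exact le_of_eq hu
    · rw [← ValuationSubring.valuation_le_one_iff]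
      exact le_of_eq (inv_mem hu : u⁻¹ ∈ O'.unitGroup)
  · intro x hx hx'
    obtain ⟨t, ht, e⟩ := hO'.one x hx hx'
    obtain ⟨b, rfl⟩ := (hT t).1 ht
    exact ⟨b, by rw [← e, Units.val_pow_eq_pow_val]⟩

/-- fields with transitive norm groups outside `H` carry a valuation -/
theorem odd_ring (p : ℕ) (hp : p.Prime) (hp2 : p ≠ 2) (F : Type) [Field F]
    (hζ : ∃ ζ : F, IsPrimitiveRoot ζ p) (H : Subgroup Fˣ) (hpH : pwG F p ≤ H)
    (htr : ∀ a : Fˣ, a ∉ H → ∀ c ∈ nmG p a, c ∉ pwG F p → nmG p c ≤ nmG p a) :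
    ∃ O : ValuationSubring F, Pw p O ∧ (O.unitGroup ≤ H ∨ ∃ b c : Fˣ, b ∉ H ∧ (c : F) = 1 - b ∧
      c ∉ pwG F p ∧ c / b ∉ pwG F p ∧ O.unitGroup ≤ H ⊔ nmG p b) := by
  obtain ⟨A, _, φ, hφ, hk⟩ := exists_quot F (pwG F p)
  have hng := Pool.Agent.Y349.EP.t_NG
  have hodd : Odd p := hp.odd_of_ne_two hp2
  have hpw : ∀ a b : Fˣ, a ^ p ∈ nmG p b := fun a b => (hng p hp hp2 F).1 b a
  have hker : ∀ a : Fˣ, φ a = 1 ↔ a ∈ pwG F p := fun a => by rw [← hk, MonoidHom.mem_ker]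
  obtain ⟨ζ, hζ⟩ := hζ
  have hpF : (p : F) ≠ 0 := by
    haveI : NeZero p := ⟨hp.ne_zero⟩
    exact hζ.neZero'.ne
  have hT : TS φ (NnF p φ hφ) (H.map φ) := by
    refine ⟨hφ, ?_, ?_, ?_, ?_⟩
    · rw [phi_one hk]
      exact ⟨-1, hodd.neg_one_pow.symm⟩
    · intro a b hab
      obtain ⟨u, rfl⟩ := hφ a
      obtain ⟨v, rfl⟩ := hφ b
      by_cases hv : φ v = 1
      · rw [NnF, if_pos hv]; trivial
      by_cases hu : φ u = 1
      · rw [hu]; exact one_mem _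
      rw [mem_Nn hφ hk hng hp hp2 hu] at hab
      rw [mem_Nn hφ hk hng hp hp2 hv]
      refine Pool.Agent.Y349.EP.t_SYMM p hp hp2 F ζ hζ u v ?_ ?_ hab
      · rw [← hker]; exact hu
      · rw [← hker]; exact hv
    · intro u v huv
      by_cases hu : φ u = 1
      · rw [NnF, if_pos hu]; trivial
      rw [mem_Nn hφ hk hng hp hp2 hu]
      exact (hng p hp hp2 F).2.1 u v huv
    · intro a ha c hc hc1 d hd
      obtain ⟨u, rfl⟩ := hφ a
      obtain ⟨v, rfl⟩ := hφ c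
      obtain ⟨t, rfl⟩ := hφ d
      have hu : φ u ≠ 1 := fun e => ha (e ▸ one_mem _)
      rw [mem_Nn hφ hk hng hp hp2 hu] at hc ⊢
      rw [mem_Nn hφ hk hng hp hp2 hc1] at hd
      exact htr u (fun h => ha ⟨u, h, rfl⟩) v hc (fun h => hc1 ((hker v).2 h)) hd
  have hmapH : ∀ x : Fˣ, φ x ∈ H.map φ ↔ x ∈ H := by
    intro x
    constructor
    · rintro ⟨y, hy, e⟩
      have : φ (x / y) = 1 := by rw [map_div, e, div_self']
      have h1 := mul_mem (hpH ((hker _).1 this)) hy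
      rwa [div_mul_cancel] at h1
    · exact fun h => ⟨x, h, rfl⟩
  have hkT : ∀ x : Fˣ, x ∈ φ.ker ↔ ∃ y : Fˣ, x = y ^ p := fun x => by
    rw [MonoidHom.mem_ker, phi_one hk]
  rcases exists_RP hT hp hζ (fun a => by rw [phi_one hk]) with hRP | ⟨r, s, hrs, hr, hRP⟩
  · obtain ⟨O, h1, h2⟩ := ring_of_RP hp hp2 hpF hkT hRP
    refine ⟨O, h2, Or.inl fun x hx => ?_⟩
    rw [← hmapH]
    exact h1 hx
  · obtain ⟨O, h1, h2⟩ := ring_of_RP hp hp2 hpF hkT hRP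
    refine ⟨O, h2, Or.inr ⟨r, s, fun h => hr ((hmapH r).2 h), by linear_combination hrs.eq,
      fun h => hrs.s1 ((hker _).2 h), fun h => hrs.rs ?_, fun x hx => ?_⟩⟩
    · have := (hker _).2 h
      rwa [map_div, div_eq_one] at this
    · have hx1 := h1 hx
      rw [Subgroup.mem_comap, Subgroup.mem_sup] at hx1
      obtain ⟨y, hy, z, hz, e⟩ := hx1
      obtain ⟨y, rfl⟩ := hφ y
      obtain ⟨z, rfl⟩ := hφ z
      rw [hmapH] at hy
      rw [mem_Nn hφ hk hng hp hp2 hrs.r1] at hz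
      have : φ (x / (y * z)) = 1 := by rw [map_div, map_mul, e, div_self']
      have h1 : x = x / (y * z) * (y * z) := by rw [div_mul_cancel]
      rw [h1]
      exact mul_mem (Subgroup.mem_sup_left (hpH ((hker _).1 this)))
        (mul_mem (Subgroup.mem_sup_left hy) (Subgroup.mem_sup_right hz))

end Pool.Agent.X269.EF
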