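import Pool.Agent.X269.EF.Resid

set_option autoImplicit false

/-! # All classes outside one norm group are rigid -/

namespace Pool.Agent.X269.EF

open Pool.Agent.Y920.EP

section block

variable {F : Type} [Field F] {A : Type} [CommGroup A] {φ : Fˣ →* A} {Nn : A → Subgroup A}
  {H : Subgroup A}

/-- a class that is not rigid belongs to an equation with three classes -/
lemma exists_NP (h : TS φ Nn H) {x : Fˣ} (h1 : φ x ≠ 1)
    (hx : ¬ ∃ z : Fˣ, (z : F) = 1 + x ∧ (φ z = 1 ∨ φ z = φ x)) : ∃ z : Fˣ, NP φ (-x) z := by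
  have hne : (1 : F) + x ≠ 0 := by
    have := add_ne h.neg (x := 1) (y := x) (by rw [map_one]; exact fun e => h1 e.symm)
    rwa [Units.val_one] at this
  obtain ⟨z, hz⟩ : ∃ z : Fˣ, (z : F) = 1 + x := ⟨Units.mk0 _ hne, rfl⟩
  refine ⟨z, by rw [Units.val_neg, hz]; ring, by rw [phi_neg' h]; exact h1,
    fun e => hx ⟨z, hz, Or.inl e⟩, ?_⟩
  rw [phi_neg' h]
  exact fun e => hx ⟨z, hz, Or.inr e⟩

lemma rp_of_rigid (h : TS φ Nn H) (K : Subgroup A) (hr : ∀ x : Fˣ, φ x ∉ K →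
      ∃ z : Fˣ, (z : F) = 1 + x ∧ (φ z = 1 ∨ φ z = φ x)) : RP φ.ker (K.comap φ) := by
  refine ⟨?_, ?_, ?_⟩
  · intro x hx
    rw [Subgroup.mem_comap, MonoidHom.mem_ker.1 hx]
    exact one_mem _
  · rw [Subgroup.mem_comap, h.neg]
    exact one_mem _
  · intro x hx
    rw [Subgroup.mem_comap] at hx
    obtain ⟨s, hs, h1 | h1⟩ := hr x hx
    · exact Or.inl ⟨s, MonoidHom.mem_ker.2 h1, hs⟩
    · refine Or.inr ⟨s / x, ?_, ?_⟩
      · rw [MonoidHom.mem_ker, map_div, h1, div_self']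
      · rw [mul_div_cancel, hs]

/-- rigid pairs -/
theorem exists_RP (h : TS φ Nn H) {p : ℕ} (hp : p.Prime) {ζ : F}
    (hζ : IsPrimitiveRoot ζ p) (hk : ∀ a : Fˣ, φ a = 1 ↔ ∃ b : Fˣ, a = b ^ p) :
    RP φ.ker (H.comap φ) ∨ ∃ r s : Fˣ, NP φ r s ∧ φ r ∉ H ∧
      RP φ.ker ((H ⊔ Nn (φ r)).comap φ) := by
  by_cases hex : ∃ r s : Fˣ, NP φ r s ∧ φ r ∉ H
  · obtain ⟨r, s, hrs, hr⟩ := hex
    refine Or.inr ⟨r, s, hrs, hr, rp_of_rigid h _ fun x hx => ?_⟩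
    have hxH : φ x ∉ H := fun h' => hx (Subgroup.mem_sup_left h')
    by_contra hc
    obtain ⟨z, hz⟩ := exists_NP h (fun e => hxH (e ▸ one_mem _)) hc
    exact no_two_blocks (r := r) (s := s) (u := -x) (v := z)
      ⟨h, hrs, hz, hr, by rw [phi_neg' h]; exact hxH, by
        rw [phi_neg' h]; exact fun h' => hx (Subgroup.mem_sup_right h')⟩ hp hζ hk
  · refine Or.inl (rp_of_rigid h _ fun x hxH => ?_)
    by_contra hc
    obtain ⟨z, hz⟩ := exists_NP h (fun e => hxH (e ▸ one_mem _)) hc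
    exact hex ⟨_, _, hz, by rw [phi_neg' h]; exact hxH⟩

end block

end Pool.Agent.X269.EF
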