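import Mathlib
import Pool.Agent.Y920.EP.Base

set_option autoImplicit false

/-! # Classes with transitive norm groups: small elements and units -/

namespace Pool.Agent.X269.EF

open Pool.Agent.Y920.EP

/-- a homomorphism `φ` of the units of a field onto an abelian group `A`, subgroups `N(a)` of `A`,
and a subgroup `H` such that `N(c)` lies in `N(a)` for `a` outside `H` and `1 ≠ c ∈ N(a)` -/
structure TS {F : Type} [Field F] {A : Type} [CommGroup A] (φ : Fˣ →* A) (Nn : A → Subgroup A)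
    (H : Subgroup A) : Prop where
  surj : Function.Surjective φ
  neg : φ (-1) = 1
  symm : ∀ a b : A, b ∈ Nn a → a ∈ Nn b
  sum : ∀ u v : Fˣ, (v : F) = 1 + u → φ v ∈ Nn (φ u)
  trans : ∀ a : A, a ∉ H → ∀ c ∈ Nn a, c ≠ 1 → Nn c ≤ Nn a

/-- `1 + w` is not zero and has trivial class -/
def Sm {F : Type} [Field F] {A : Type} [CommGroup A] (φ : Fˣ →* A) (w : Fˣ) : Prop :=
  ∃ z : Fˣ, (z : F) = 1 + w ∧ φ z = 1

section basic

variable {F : Type} [Field F] {A : Type} [CommGroup A] {φ : Fˣ →* A} {Nn : A → Subgroup A}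
  {H : Subgroup A}

lemma phi_neg' (h : TS φ Nn H) (x : Fˣ) : φ (-x) = φ x := phi_neg h.neg x

/-- `a ∈ N(a)` -/
lemma self_mem' (h : TS φ Nn H) (a : A) : a ∈ Nn a := by
  by_cases ha : a = 1
  · rw [ha]; exact one_mem _
  obtain ⟨u, rfl⟩ := h.surj a
  have hu : (1 : F) + u ≠ 0 := by
    have := add_ne h.neg (x := 1) (y := u) (by rw [map_one]; exact fun e => ha e.symm)
    rwa [Units.val_one] at this
  have h1 := h.sum u (Units.mk0 _ hu) (Units.val_mk0 hu)
  have h2 := h.sum u⁻¹ (Units.mk0 _ hu / u) (by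
    rw [Units.val_div_eq_div_val, Units.val_mk0, Units.val_inv_eq_inv_val]
    field_simp
    ring)
  have h3 : φ (Units.mk0 _ hu / u) ∈ Nn (φ u) := by
    have h4 := h.symm _ _ h2
    rw [map_inv] at h4
    exact h.symm _ _ (inv_mem_iff.1 h4)
  have h5 := div_mem h1 h3
  rw [← map_div, div_div_cancel] at h5
  exact h5

/-- the basic step -/
lemma step (h : TS φ Nn H) {a : A} (ha : a ∉ H) {x y z w : Fˣ} (hz : (z : F) = x + y)
    (hxy : φ x ≠ φ y) (hx : φ x ∈ Nn a) (hy : φ y ∈ Nn a) (hw : φ w ∉ Nn a)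
    (hs : Sm φ (w / x)) : Sm φ (w / z) := by
  obtain ⟨z1, h1, h2⟩ := hs
  have hx' : ((x * z1 : Fˣ) : F) = x + w := by
    rw [Units.val_mul, h1, Units.val_div_eq_div_val]
    field_simp
  have hcx : φ (x * z1) = φ x := by rw [map_mul, h2, mul_one]
  have hne : ((x * z1 : Fˣ) : F) + y ≠ 0 := add_ne h.neg (by rw [hcx]; exact hxy)
  obtain ⟨z', hz'⟩ : ∃ z' : Fˣ, (z' : F) = ((x * z1 : Fˣ) : F) + y := ⟨Units.mk0 _ hne, rfl⟩
  have hzw : (z' : F) = z + w := by rw [hz', hx', hz]; ring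
  have h3 : φ (z' / y) ∈ Nn (φ (x / y)) := by
    have := h.sum ((x * z1) / y) (z' / y) (by
      rw [Units.val_div_eq_div_val, Units.val_div_eq_div_val, hz']
      field_simp
      ring)
    rwa [map_div, hcx, ← map_div] at this
  have h4 : φ (z / y) ∈ Nn (φ (x / y)) := h.sum (x / y) (z / y) (by
    rw [Units.val_div_eq_div_val, Units.val_div_eq_div_val, hz]
    field_simp
    ring)
  have h5 : φ (z' / z) ∈ Nn (φ (x / y)) := by
    have := div_mem h3 h4
    rwa [← map_div, div_div_div_cancel_right] at this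
  have h6 : Nn (φ (x / y)) ≤ Nn a := h.trans a ha _ (by rw [map_div]; exact div_mem hx hy)
    (by rw [map_div]; exact fun e => hxy (div_eq_one.1 e))
  have hza : φ z ∈ Nn a := by
    have : z = z / y * y := by rw [div_mul_cancel]
    rw [this, map_mul]
    exact mul_mem (h6 h4) hy
  refine ⟨z' / z, ?_, ?_⟩
  · rw [Units.val_div_eq_div_val, Units.val_div_eq_div_val, hzw]
    field_simp
  · by_contra hg
    have h7 : φ (z' / z) ∈ Nn (φ (w / z)) := h.sum (w / z) (z' / z) (by
      rw [Units.val_div_eq_div_val, Units.val_div_eq_div_val, hzw]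
      field_simp)
    have h8 := h.trans a ha _ (h6 h5) hg (h.symm _ _ h7)
    apply hw
    have : w = w / z * z := by rw [div_mul_cancel]
    rw [this, map_mul]
    exact mul_mem h8 hza

/-- the equation `r + s = 1` with three different classes -/
structure NP {F : Type} [Field F] {A : Type} [CommGroup A] (φ : Fˣ →* A) (r s : Fˣ) : Prop where
  eq : (r : F) + s = 1
  r1 : φ r ≠ 1
  s1 : φ s ≠ 1
  rs : φ s ≠ φ r

lemma NP.mem (h : TS φ Nn H) {r s : Fˣ} (hp : NP φ r s) : φ s ∈ Nn (φ r) := by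
  have := h.sum (-r) s (by rw [Units.val_neg]; linear_combination hp.eq)
  rwa [phi_neg' h] at this

/-- all six terms have the same smaller elements -/
lemma six (h : TS φ Nn H) {r s : Fˣ} (hp : NP φ r s) (hr : φ r ∉ H) {w : Fˣ}
    (hw : φ w ∉ Nn (φ r)) :
    (Sm φ w ↔ Sm φ (w / r)) ∧ (Sm φ w ↔ Sm φ (w / s)) ∧ (Sm φ w ↔ Sm φ (w / (-1))) ∧
      (Sm φ w ↔ Sm φ (w / (-r))) := by
  have mr : φ r ∈ Nn (φ r) := self_mem' h _
  have ms : φ s ∈ Nn (φ r) := hp.mem h
  have m1 : φ (1 : Fˣ) ∈ Nn (φ r) := by rw [map_one]; exact one_mem _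
  have mm1 : φ (-1 : Fˣ) ∈ Nn (φ r) := by rw [h.neg]; exact one_mem _
  have mmr : φ (-r) ∈ Nn (φ r) := by rw [phi_neg' h]; exact mr
  have mms : φ (-s) ∈ Nn (φ r) := by rw [phi_neg' h]; exact ms
  have e := hp.eq
  have e1 : Sm φ (w / r) → Sm φ (w / 1) := step h hr (by rw [Units.val_one, e])
    (fun e => hp.rs e.symm) mr ms hw
  have e3 : Sm φ (w / 1) → Sm φ (w / r) := step h hr (x := 1) (y := -s)
    (by rw [Units.val_one, Units.val_neg]; linear_combination e)
    (by rw [map_one, phi_neg' h]; exact fun e => hp.s1 e.symm) m1 mms hw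
  have e4 : Sm φ (w / 1) → Sm φ (w / s) := step h hr (x := 1) (y := -r)
    (by rw [Units.val_one, Units.val_neg]; linear_combination e)
    (by rw [map_one, phi_neg' h]; exact fun e => hp.r1 e.symm) m1 mmr hw
  have e6 : Sm φ (w / (-1)) → Sm φ (w / (-s)) := step h hr (x := -1) (y := r)
    (by rw [Units.val_neg, Units.val_neg, Units.val_one]; linear_combination -e)
    (by rw [h.neg]; exact fun e => hp.r1 e.symm) mm1 mr hw
  have e7 : Sm φ (w / (-s)) → Sm φ (w / r) := step h hr (x := -s) (y := 1)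
    (by rw [Units.val_one, Units.val_neg]; linear_combination e)
    (by rw [map_one, phi_neg' h]; exact hp.s1) mms m1 hw
  have e8 : Sm φ (w / s) → Sm φ (w / (-r)) := step h hr (x := s) (y := -1)
    (by rw [Units.val_neg, Units.val_neg, Units.val_one]; linear_combination -e)
    (by rw [h.neg]; exact hp.s1) ms mm1 hw
  have e9 : Sm φ (w / (-r)) → Sm φ (w / (-1)) := step h hr (x := -r) (y := -s)
    (by rw [Units.val_neg, Units.val_neg, Units.val_neg, Units.val_one]; linear_combination e)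
    (by rw [phi_neg' h, phi_neg' h]; exact fun e => hp.rs e.symm) mmr mms hw
  rw [div_one] at e1 e3 e4
  exact ⟨⟨e3, e1⟩, ⟨e4, fun x => e1 (e7 (e6 (e9 (e8 x))))⟩, ⟨fun x => e9 (e8 (e4 x)),
    fun x => e1 (e7 (e6 x))⟩, ⟨fun x => e8 (e4 x), fun x => e1 (e7 (e6 (e9 x)))⟩⟩

/-- sums of an element and one -/
lemma unit_sum (h : TS φ Nn H) {y z : Fˣ} (hy : φ y ∉ H) (hz : (z : F) = 1 + y)
    (hzy : φ z ≠ φ y) {w : Fˣ} (hw : φ w ∉ Nn (φ y)) : Sm φ w ↔ Sm φ (w / z) := by
  have hy1 : φ y ≠ 1 := fun e => hy (e ▸ one_mem _)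
  have my : φ y ∈ Nn (φ y) := self_mem' h _
  have m1 : φ (1 : Fˣ) ∈ Nn (φ y) := by rw [map_one]; exact one_mem _
  constructor
  · intro hs
    refine step h hy (x := 1) (y := y) (by rw [Units.val_one, hz])
      (by rw [map_one]; exact fun e => hy1 e.symm) m1 my hw ?_
    rwa [div_one]
  · intro hs
    have := step h hy (x := z) (y := -y) (z := 1)
      (by rw [Units.val_one, Units.val_neg, hz]; ring)
      (by rw [phi_neg' h]; exact hzy) (h.sum _ _ hz) (by rw [phi_neg' h]; exact my) hw hs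
    rwa [div_one] at this

end basic

end Pool.Agent.X269.EF
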