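import Mathlib

set_option autoImplicit false

/-! # Fields in which the `p`-th powers are closed under addition -/

namespace Pool.Agent.X269.EF

open Polynomial

section field

variable {k : Type} [Field k] {p : ℕ}

/-- the field of `p`-th powers -/
def powField (hp : p ≠ 0) (hneg : ∃ i : k, i ^ p = -1)
    (hadd : ∀ x : k, ∃ e : k, e ^ p = 1 + x ^ p) : Subfield k where
  carrier := {x | ∃ y : k, y ^ p = x}
  zero_mem' := ⟨0, zero_pow hp⟩
  one_mem' := ⟨1, one_pow p⟩
  mul_mem' := by
    rintro _ _ ⟨a, rfl⟩ ⟨b, rfl⟩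
    exact ⟨a * b, mul_pow a b p⟩
  add_mem' := by
    rintro _ _ ⟨a, rfl⟩ ⟨b, rfl⟩
    by_cases hb : b = 0
    · exact ⟨a, by rw [hb, zero_pow hp, add_zero]⟩
    · obtain ⟨e, he⟩ := hadd (a / b)
      refine ⟨b * e, ?_⟩
      have : b ^ p ≠ 0 := pow_ne_zero _ hb
      rw [mul_pow, he, div_pow]
      field_simp
      ring
  neg_mem' := by
    rintro _ ⟨a, rfl⟩
    obtain ⟨i, hi⟩ := hneg
    exact ⟨i * a, by rw [mul_pow, hi, neg_one_mul]⟩
  inv_mem' := by
    rintro _ ⟨a, rfl⟩
    exact ⟨a⁻¹, inv_pow a p⟩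

/-- an infinite field in which the `p`-th powers are closed under addition consists of `p`-th
powers -/
theorem all_pow [Infinite k] (hp : p ≠ 0) (hpk : (p : k) ≠ 0) (hneg : ∃ i : k, i ^ p = -1)
    (hadd : ∀ x : k, ∃ e : k, e ^ p = 1 + x ^ p) (x : k) : ∃ y : k, y ^ p = x := by
  classical
  set K := powField hp hneg hadd with hK
  have hmem : ∀ y : k, y ^ p ∈ K := fun y => ⟨y, rfl⟩
  have hinf : Set.Infinite (K : Set k) := by
    intro hfin
    have h1 : ((fun y : k => y ^ p) ⁻¹' (K : Set k)).Finite := by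
      refine hfin.preimage' fun c _ => ?_
      refine ((nthRoots p c).toFinset.finite_toSet).subset fun y hy => ?_
      rw [Finset.mem_coe, Multiset.mem_toFinset, mem_nthRoots (Nat.pos_of_ne_zero hp)]
      exact hy
    have h2 : ((fun y : k => y ^ p) ⁻¹' (K : Set k)) = Set.univ :=
      Set.eq_univ_of_forall fun y => hmem y
    rw [h2] at h1
    exact Set.infinite_univ h1
  have hinf' : Infinite K := hinf.to_subtype
  obtain ⟨s, hs⟩ := Infinite.exists_subset_card_eq K (p + 1)
  let val : K → K := fun t => ⟨((t : k) + x) ^ p, hmem _⟩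
  let g : K[X] := Lagrange.interpolate s id val
  let f : k[X] := (X + C x) ^ p
  have hdf : f.degree < (s.image (fun t : K => (t : k))).card := by
    rw [Finset.card_image_of_injective _ Subtype.val_injective, hs]
    have h1 : f.degree ≤ p := by
      refine (degree_pow_le _ _).trans ?_
      have : (X + C x : k[X]).degree ≤ 1 := by rw [degree_X_add_C]
      calc p • (X + C x : k[X]).degree ≤ p • (1 : WithBot ℕ) := nsmul_le_nsmul_right this p
        _ = p := by simp
    exact lt_of_le_of_lt h1 (by exact_mod_cast Nat.lt_succ_self p)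
  have hdg : (g.map K.subtype).degree < (s.image (fun t : K => (t : k))).card := by
    rw [Finset.card_image_of_injective _ Subtype.val_injective]
    refine lt_of_le_of_lt degree_map_le ?_
    exact Lagrange.degree_interpolate_lt _ Function.injective_id.injOn
  have hfg : f = g.map K.subtype := by
    refine eq_of_degrees_lt_of_eval_finset_eq _ hdf hdg ?_
    intro y hy
    rw [Finset.mem_image] at hy
    obtain ⟨t, ht, rfl⟩ := hy
    have h1 : g.eval t = val t := by
      have := Lagrange.eval_interpolate_at_node (r := val) (v := id) (s := s)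
        Function.injective_id.injOn ht
      exact this
    have h2 : (g.map K.subtype).eval ((t : K) : k) = K.subtype (g.eval t) := by
      rw [eval_map]
      exact eval₂_at_apply K.subtype t
    rw [h2, h1]
    show eval (t : k) ((X + C x) ^ p) = ((t : k) + x) ^ p
    simp
  have hc : f.coeff (p - 1) = x * p := by
    show ((X + C x) ^ p).coeff (p - 1) = x * p
    rw [coeff_X_add_C_pow, Nat.sub_sub_self (Nat.pos_of_ne_zero hp), pow_one]
    congr 1
    obtain ⟨n, rfl⟩ := Nat.exists_eq_succ_of_ne_zero hp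
    rw [Nat.succ_sub_one, Nat.succ_eq_add_one, Nat.choose_succ_self_right]
  have h3 : x * p ∈ K := by
    rw [← hc, hfg, coeff_map]
    exact (g.coeff (p - 1)).2
  have h4 : x = x * p * ((p : k))⁻¹ := by field_simp
  have h5 : x ∈ K := by
    rw [h4]
    exact K.mul_mem h3 (K.inv_mem (natCast_mem K p))
  exact h5

/-- in a finite field: if `r` is not a `p`-th power, then some `u r^j` is one -/
theorem fin_pow [Finite k] (hp : p.Prime) {r u : k} (hr : r ≠ 0) (hu : u ≠ 0)
    (hrp : ¬ ∃ y : k, y ^ p = r) : ∃ (j : ℤ) (y : k), y ^ p = u * r ^ j := by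
  obtain ⟨g, hg⟩ := IsCyclic.exists_generator (α := kˣ)
  obtain ⟨a, ha⟩ := Subgroup.mem_zpowers_iff.1 (hg (Units.mk0 r hr))
  obtain ⟨b, hb⟩ := Subgroup.mem_zpowers_iff.1 (hg (Units.mk0 u hu))
  have hna : ¬ (p : ℤ) ∣ a := by
    rintro ⟨c, rfl⟩
    apply hrp
    refine ⟨((g ^ c : kˣ) : k), ?_⟩
    rw [← Units.val_pow_eq_pow_val, ← zpow_natCast, ← zpow_mul, mul_comm c, ha, Units.val_mk0]
  have hcop : IsCoprime (p : ℤ) a :=
    ((Nat.prime_iff_prime_int.1 hp).coprime_iff_not_dvd).2 hna
  obtain ⟨m, n, hmn⟩ := hcop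
  refine ⟨-(b * n), ((g ^ (b * m) : kˣ) : k), ?_⟩
  have h1 : ((g ^ (b * m)) ^ p : kˣ) = Units.mk0 u hu * (Units.mk0 r hr) ^ (-(b * n)) := by
    rw [← ha, ← hb, ← zpow_natCast, ← zpow_mul, ← zpow_mul, ← zpow_add]
    congr 1
    linear_combination b * hmn
  have := congrArg (fun y : kˣ => (y : k)) h1
  simpa using this

end field

end Pool.Agent.X269.EF
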