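import Mathlib

set_option autoImplicit false

/-! # Valuation rings whose one-units are `p`-th powers: residue characteristic `p` -/

namespace Pool.Agent.X269.EF

variable {F : Type} [Field F] (O : ValuationSubring F) {p : ℕ} (hp : p.Prime)

include hp in
/-- binomial formula in the valuation ring -/
lemma binom {y : F} (hy : O.valuation y ≤ 1) : ∃ q : F, O.valuation q ≤ 1 ∧
    (1 + y) ^ p = 1 + y ^ p + p * y * q := by
  have hy' : y ∈ O := (O.valuation_le_one_iff y).1 hy
  obtain ⟨q, hq⟩ := exists_add_pow_prime_eq hp (1 : O) ⟨y, hy'⟩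
  refine ⟨q, O.valuation_le_one q, ?_⟩
  have := congrArg (fun x : O => (x : F)) hq
  simp only [one_pow, mul_one] at this
  push_cast at this
  exact this

include hp in
/-- if the residue characteristic is `p` and all one-units are `p`-th powers, then all units are
`p`-th powers -/
theorem units_pow {ζ : F} (hζ : IsPrimitiveRoot ζ p)
    (h1 : ∀ x : F, O.valuation x < 1 → ∃ y : F, y ^ p = 1 + x) (hv : O.valuation (p : F) < 1)
    {a : F} (ha : O.valuation a = 1) : ∃ c : F, c ^ p = a := by
  set v := O.valuation with hvdef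
  have hp0 : p ≠ 0 := hp.ne_zero
  have hp1 : 1 < p := hp.one_lt
  -- powers
  have hpow1 : ∀ {x : F}, v x ^ p = 1 → v x = 1 := fun {x} h => by
    rcases lt_trichotomy (v x) 1 with h2 | h2 | h2
    · exact absurd h (pow_lt_one₀ zero_le h2 hp0).ne
    · exact h2
    · exact absurd h (one_lt_pow₀ h2 hp0).ne'
  have hζ1 : v ζ = 1 := hpow1 (by rw [← map_pow, hζ.pow_eq_one, map_one])
  set e := ζ - 1 with he
  have hve1 : v e ≤ 1 := (v.map_sub _ _).trans (by rw [hζ1, map_one, max_self])
  have hζe : ζ = 1 + e := by rw [he]; ring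
  -- `v(e) < 1`
  have hve : v e < 1 := by
    by_contra hcon
    have hve' : v e = 1 := le_antisymm hve1 (not_lt.1 hcon)
    obtain ⟨q, hq, hq'⟩ := binom O hp hve1
    have h2 : e ^ p = -(p * e * q) := by
      have h3 : (1 + e) ^ p = 1 := by rw [← hζe, hζ.pow_eq_one]
      rw [h3] at hq'
      linear_combination -hq'
    have h4 : v (e ^ p) < 1 := by
      rw [h2, v.map_neg, map_mul, map_mul, hve', mul_one]
      exact (mul_le_mul' le_rfl hq).trans_lt (by rw [mul_one]; exact hv)
    rw [map_pow, hve', one_pow] at h4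
    exact lt_irrefl _ h4
  -- `v(p) ≤ v(e)^(p-1)`
  have hpe : v (p : F) ≤ v e ^ (p - 1) := by
    obtain ⟨n, rfl⟩ : ∃ n, p = n + 1 := ⟨p - 1, by omega⟩
    have h2 := hζ.prod_one_sub_pow_eq_order
    have h3 : ((n + 1 : ℕ) : F) = ∏ k ∈ Finset.range n, (1 - ζ ^ (k + 1)) := by
      rw [h2]; push_cast; ring
    rw [h3, map_prod, Nat.add_sub_cancel]
    calc ∏ k ∈ Finset.range n, v (1 - ζ ^ (k + 1)) ≤ ∏ _k ∈ Finset.range n, v e := by
          refine Finset.prod_le_prod' fun k _ => ?_
          have h4 : (1 : F) - ζ ^ (k + 1) = -(e * ∑ i ∈ Finset.range (k + 1), ζ ^ i) := by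
            have := mul_geom_sum ζ (k + 1)
            rw [he]
            linear_combination this
          rw [h4, v.map_neg, map_mul]
          have h5 : v (∑ i ∈ Finset.range (k + 1), ζ ^ i) ≤ 1 := by
            refine v.map_sum_le fun i _ => ?_
            rw [map_pow, hζ1, one_pow]
          exact (mul_le_mul' le_rfl h5).trans (by rw [mul_one])
      _ = v e ^ n := by rw [Finset.prod_const, Finset.card_range]
  -- a `p`-th root of `ζ`
  obtain ⟨c, hc⟩ := h1 e hve
  rw [← hζe] at hc
  have hvc : v c = 1 := hpow1 (by rw [← map_pow, hc, hζ1])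
  set t := c - 1 with ht
  have hct : c = 1 + t := by rw [ht]; ring
  have hvt1 : v t ≤ 1 := (v.map_sub _ _).trans (by rw [hvc, map_one, max_self])
  obtain ⟨q, hq, hq'⟩ := binom O hp hvt1
  rw [← hct, hc, hζe] at hq'
  have hte : t ^ p + p * t * q = e := by linear_combination -hq'
  have hvt : v t < 1 := by
    by_contra hcon
    have hvt' : v t = 1 := le_antisymm hvt1 (not_lt.1 hcon)
    have h2 : t ^ p = e - p * t * q := by rw [← hte]; ring
    have h3 : v (t ^ p) < 1 := by
      rw [h2]
      refine (v.map_sub _ _).trans_lt (max_lt hve ?_)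
      rw [map_mul, map_mul, hvt', mul_one]
      exact (mul_le_mul' le_rfl hq).trans_lt (by rw [mul_one]; exact hv)
    rw [map_pow, hvt', one_pow] at h3
    exact lt_irrefl _ h3
  have ht0 : t ≠ 0 := by
    intro h
    have h2 : c = 1 := by rw [hct, h, add_zero]
    rw [h2, one_pow] at hc
    exact hζ.ne_one hp1 hc.symm
  have hvt0 : 0 < v t := zero_lt_iff.2 ((Valuation.ne_zero_iff _).2 ht0)
  have hvet : v e < v t := by
    rw [← hte]
    refine (v.map_add _ _).trans_lt (max_lt ?_ ?_)
    · rw [map_pow]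
      exact pow_lt_self_of_lt_one₀ hvt0 hvt hp1
    · rw [map_mul, map_mul]
      calc v (p : F) * v t * v q ≤ v (p : F) * v t * 1 := mul_le_mul' le_rfl hq
        _ = v (p : F) * v t := mul_one _
        _ < 1 * v t := mul_lt_mul_of_pos_right hv hvt0
        _ = v t := one_mul _
  have hpt : v (p : F) < v t ^ (p - 1) :=
    hpe.trans_lt (pow_lt_pow_left₀ hvet zero_le (by omega))
  -- the root of `1 + t^p a`
  have hx : v (t ^ p * a) < 1 := by
    rw [map_mul, ha, mul_one, map_pow]
    exact pow_lt_one₀ zero_le hvt hp0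
  obtain ⟨c', hc'⟩ := h1 _ hx
  have hvc' : v c' = 1 := hpow1 (by
    rw [← map_pow, hc']
    exact (Valuation.map_add_eq_of_lt_left v (by rwa [map_one])).trans (map_one _))
  set y := c' - 1 with hy
  have hcy : c' = 1 + y := by rw [hy]; ring
  have hvy1 : v y ≤ 1 := (v.map_sub _ _).trans (by rw [hvc', map_one, max_self])
  obtain ⟨q2, hq2, hq2'⟩ := binom O hp hvy1
  rw [← hcy, hc'] at hq2'
  have hya : y ^ p + p * y * q2 = t ^ p * a := by linear_combination -hq2'
  set b := y / t with hb
  have hyb : y = t * b := by rw [hb]; field_simp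
  set d := (p : F) / t ^ (p - 1) * q2 with hd
  have hvd : v d < 1 := by
    rw [hd, map_mul, map_div₀, map_pow]
    have h2 : v (p : F) / v t ^ (p - 1) < 1 := (div_lt_one₀ (pow_pos hvt0 _)).2 hpt
    exact (mul_le_mul' le_rfl hq2).trans_lt (by rw [mul_one]; exact h2)
  have hba : b ^ p + d * b = a := by
    have htp : t ^ p = t * t ^ (p - 1) := by rw [← pow_succ', Nat.sub_add_cancel hp.one_le]
    have h2 : t ^ p * (b ^ p + d * b) = t ^ p * a := by
      rw [← hya, hyb, mul_add, ← mul_pow, hd]
      congr 1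
      rw [htp]
      have : t ^ (p - 1) ≠ 0 := pow_ne_zero _ ht0
      field_simp
    exact mul_left_cancel₀ (pow_ne_zero _ ht0) h2
  have hvb : v b = 1 := by
    rcases lt_trichotomy (v b) 1 with h2 | h2 | h2
    · exfalso
      have h3 : v a < 1 := by
        rw [← hba]
        refine (v.map_add _ _).trans_lt (max_lt ?_ ?_)
        · rw [map_pow]; exact pow_lt_one₀ zero_le h2 hp0
        · rw [map_mul]
          exact mul_lt_one_of_nonneg_of_lt_one_left zero_le hvd h2.le
      rw [ha] at h3
      exact lt_irrefl _ h3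
    · exact h2
    · exfalso
      have h3 : v (d * b) < v (b ^ p) := by
        rw [map_mul, map_pow]
        calc v d * v b < 1 * v b := mul_lt_mul_of_pos_right hvd (zero_lt_one.trans h2)
          _ = v b := one_mul _
          _ = v b ^ 1 := (pow_one _).symm
          _ ≤ v b ^ p := pow_le_pow_right₀ h2.le hp.one_le
      have h4 : v a = v (b ^ p) := by
        rw [← hba]
        exact Valuation.map_add_eq_of_lt_left v h3
      rw [ha, map_pow] at h4
      exact absurd h4 (one_lt_pow₀ h2 hp0).ne
  have hb0 : b ≠ 0 := by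
    rintro h
    rw [h, map_zero] at hvb
    exact zero_ne_one hvb
  obtain ⟨c2, hc2⟩ := h1 (d * b / b ^ p) (by
    rw [map_div₀, map_mul, map_pow, hvb, mul_one, one_pow, div_one]
    exact hvd)
  refine ⟨b * c2, ?_⟩
  rw [mul_pow, hc2, ← hba]
  have : b ^ p ≠ 0 := pow_ne_zero _ hb0
  field_simp

end Pool.Agent.X269.EF
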