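import Pool.Agent.X269.EF.Ring
import Pool.Agent.X269.EF.Wild
import Pool.Agent.X269.EF.Tame

set_option autoImplicit false

/-! # There are no two blocks -/

namespace Pool.Agent.X269.EF

open Pool.Agent.Y920.EP

section resid

variable {F : Type} [Field F] {A : Type} [CommGroup A] {φ : Fˣ →* A} {Nn : A → Subgroup A}
  {H : Subgroup A} {r s u v : Fˣ} (C : TB φ Nn H r s u v)

include C in
/-- two blocks contradict each other if the trivial class consists of the `p`-th powers -/
theorem no_two_blocks {p : ℕ} (hp : p.Prime) {ζ : F} (hζ : IsPrimitiveRoot ζ p)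
    (hk : ∀ a : Fˣ, φ a = 1 ↔ ∃ b : Fˣ, a = b ^ p) : False := by
  obtain ⟨O, hO⟩ := exists_O C
  have hp0 : p ≠ 0 := hp.ne_zero
  set w := O.valuation with hw
  have hgood : ∀ x : Fˣ, Good φ x ↔ w (x : F) = 1 := by
    intro x
    rw [good_iff C hO, ← ValuationSubring.valuation_le_one_iff,
      ← ValuationSubring.valuation_le_one_iff, Units.val_inv_eq_inv_val, map_inv₀]
    have hx : w (x : F) ≠ 0 := (Valuation.ne_zero_iff _).2 x.ne_zero
    rw [inv_le_one₀ (zero_lt_iff.2 hx)]
    exact ⟨fun h => le_antisymm h.1 h.2, fun h => ⟨h.le, h.ge⟩⟩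
  have hmm : ∀ x : Fˣ, Mm φ x ↔ w (x : F) < 1 := by
    intro x
    rw [mm_iff C hO, ← ValuationSubring.valuation_le_one_iff,
      ← ValuationSubring.valuation_le_one_iff, Units.val_inv_eq_inv_val, map_inv₀]
    have hx : w (x : F) ≠ 0 := (Valuation.ne_zero_iff _).2 x.ne_zero
    rw [inv_le_one₀ (zero_lt_iff.2 hx), not_le]
    exact ⟨fun h => h.2, fun h => ⟨h.le, h⟩⟩
  have hr1 : φ r ≠ 1 := C.p1.r1
  have hwr : w (r : F) = 1 := (hgood r).1 (good_r C)
  have hwu : w (u : F) = 1 := (hgood u).1 (good_u C)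
  -- one-units
  have h1 : ∀ x : F, w x < 1 → ∃ y : F, y ^ p = 1 + x := by
    intro x hx
    by_cases hx0 : x = 0
    · exact ⟨1, by rw [hx0, one_pow, add_zero]⟩
    have hM : Mm φ (Units.mk0 x hx0) := (hmm _).2 hx
    obtain ⟨z, hz, -⟩ := one_add_mm C hM
    obtain ⟨b, hb⟩ := (hk z).1 (one_add_class C hM hz)
    exact ⟨b, by rw [← Units.val_pow_eq_pow_val, ← hb, hz, Units.val_mk0]⟩
  -- sums of powers
  have h2 : ∀ c : F, w (1 + c ^ p) = 1 → ∃ e : F, e ^ p = 1 + c ^ p := by
    intro c hc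
    by_cases hc0 : c = 0
    · exact ⟨1, by rw [hc0, one_pow, zero_pow hp0, add_zero]⟩
    have hne : (1 : F) + c ^ p ≠ 0 := by
      intro h
      rw [h, map_zero] at hc
      exact zero_ne_one hc
    have hg : Good φ (Units.mk0 _ hne) := (hgood _).2 hc
    have hsm : Sm φ (-(Units.mk0 _ hne)) := by
      refine ⟨-(Units.mk0 c hc0) ^ p, ?_, ?_⟩
      · rw [Units.val_neg, Units.val_neg, Units.val_pow_eq_pow_val, Units.val_mk0, Units.val_mk0]
        ring
      · rw [phi_neg' C.ts, hk]
        exact ⟨_, rfl⟩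
    have h3 : φ (Units.mk0 _ hne) = 1 := by
      by_contra h4
      exact not_sm C (good_neg' C hg) (by rwa [phi_neg' C.ts]) hsm
    obtain ⟨b, hb⟩ := (hk _).1 h3
    exact ⟨b, by rw [← Units.val_pow_eq_pow_val, ← hb, Units.val_mk0]⟩
  -- residue characteristic `p`
  have hwp1 : w (p : F) ≤ 1 := (O.valuation_le_one_iff _).2 (natCast_mem O p)
  rcases hwp1.lt_or_eq with hwp | hwp
  · obtain ⟨c, hc⟩ := units_pow O hp hζ h1 hwp hwr
    apply hr1
    have hc0 : c ≠ 0 := by
      rintro rfl
      rw [zero_pow hp0] at hc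
      exact r.ne_zero hc.symm
    exact (hk r).2 ⟨Units.mk0 c hc0, Units.ext (by
      rw [Units.val_pow_eq_pow_val, Units.val_mk0, hc])⟩
  -- other residue characteristics
  let k := IsLocalRing.ResidueField O
  let res : O →+* k := IsLocalRing.residue O
  have hsurj : Function.Surjective res := IsLocalRing.residue_surjective
  have hres : ∀ a : O, res a = 0 ↔ w (a : F) < 1 := by
    intro a
    rw [← ValuationSubring.valuation_lt_one_iff]
    exact IsLocalRing.residue_eq_zero_iff a
  have hL : ∀ a : O, w (a : F) = 1 → (∃ y : k, y ^ p = res a) → ∃ c : F, c ^ p = a := by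
    rintro a ha ⟨y, hy⟩
    obtain ⟨b, rfl⟩ := hsurj y
    have h3 : w ((a : F) - (b : F) ^ p) < 1 := by
      have h4 : res (a - b ^ p) = 0 := by rw [map_sub, map_pow, hy, sub_self]
      have := (hres _).1 h4
      push_cast at this
      exact this
    have h4 : w ((b : F) ^ p) = 1 := by
      have h5 : (b : F) ^ p = a - (a - (b : F) ^ p) := by ring
      rw [h5]
      exact (Valuation.map_sub_eq_of_lt_left w (by rwa [ha])).trans ha
    have hb0 : (b : F) ^ p ≠ 0 := by
      intro h
      rw [h, map_zero] at h4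
      exact zero_ne_one h4
    obtain ⟨e, he⟩ := h1 (((a : F) - (b : F) ^ p) / (b : F) ^ p) (by
      rw [map_div₀, h4, div_one]
      exact h3)
    refine ⟨b * e, ?_⟩
    rw [mul_pow, he]
    field_simp
    ring
  have hO1 : ∀ x : F, w x ≤ 1 → x ∈ O := fun x hx => (O.valuation_le_one_iff x).1 hx
  have hnegk : ∃ i : k, i ^ p = -1 := by
    obtain ⟨i, hi⟩ := (hk (-1)).1 C.ts.neg
    have hi' : (i : F) ^ p = -1 := by
      rw [← Units.val_pow_eq_pow_val, ← hi, Units.val_neg, Units.val_one]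
    have hwi : w (i : F) = 1 := by
      refine (hgood i).1 ?_
      by_contra hcon
      rcases tri C hcon with h3 | h3
      · have := pow_lt_one₀ zero_le ((hmm i).1 h3) hp0
        rw [← map_pow, hi', Valuation.map_neg, map_one] at this
        exact lt_irrefl _ this
      · have := pow_lt_one₀ zero_le ((hmm _).1 h3) hp0
        rw [← map_pow, Units.val_inv_eq_inv_val, inv_pow, hi', map_inv₀, Valuation.map_neg, map_one,
          inv_one] at this
        exact lt_irrefl _ this
    refine ⟨res ⟨i, hO1 _ hwi.le⟩, ?_⟩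
    rw [← map_pow, ← map_one res, ← map_neg]
    congr 1
    exact Subtype.ext hi'
  have haddk : ∀ x : k, ∃ e : k, e ^ p = 1 + x ^ p := by
    intro x
    obtain ⟨c, rfl⟩ := hsurj x
    have h3 : w (1 + (c : F) ^ p) ≤ 1 := by
      have := O.valuation_le_one (1 + c ^ p)
      push_cast at this
      exact this
    rcases h3.lt_or_eq with h4 | h4
    · refine ⟨0, ?_⟩
      rw [zero_pow hp0, ← map_pow, ← map_one res, ← map_add]
      symm
      rw [hres]
      push_cast
      exact h4
    · obtain ⟨e, he⟩ := h2 _ h4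
      have hwe : w e ≤ 1 := by
        by_contra hcon
        have := one_lt_pow₀ (not_le.1 hcon) hp0
        rw [← map_pow, he, h4] at this
        exact lt_irrefl _ this
      refine ⟨res ⟨e, hO1 _ hwe⟩, ?_⟩
      rw [← map_pow, ← map_pow, ← map_one res, ← map_add]
      congr 1
      exact Subtype.ext (by push_cast; exact he)
  have hfin : ∀ x : Fˣ, (∃ c : F, c ^ p = x) → φ x = 1 := by
    rintro x ⟨c, hc⟩
    have hc0 : c ≠ 0 := by
      rintro rfl
      rw [zero_pow hp0] at hc
      exact x.ne_zero hc.symm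
    exact (hk x).2 ⟨Units.mk0 c hc0, Units.ext (by
      rw [Units.val_pow_eq_pow_val, Units.val_mk0, hc])⟩
  let R : Oˣ := ⟨⟨r, hO1 _ hwr.le⟩, ⟨(r : F)⁻¹, hO1 _ (by rw [map_inv₀, hwr, inv_one])⟩,
    Subtype.ext (mul_inv_cancel₀ r.ne_zero), Subtype.ext (inv_mul_cancel₀ r.ne_zero)⟩
  let U : Oˣ := ⟨⟨u, hO1 _ hwu.le⟩, ⟨(u : F)⁻¹, hO1 _ (by rw [map_inv₀, hwu, inv_one])⟩,
    Subtype.ext (mul_inv_cancel₀ u.ne_zero), Subtype.ext (inv_mul_cancel₀ u.ne_zero)⟩
  have hrp : ¬ ∃ y : k, y ^ p = res R := fun h => hr1 (hfin r (hL R hwr h))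
  have hR0 : res R ≠ 0 := fun h => by
    rw [hres] at h
    exact absurd hwr h.ne
  have hU0 : res U ≠ 0 := fun h => by
    rw [hres] at h
    exact absurd hwu h.ne
  have hpk : (p : k) ≠ 0 := by
    intro h
    have : res (p : O) = 0 := by rw [map_natCast]; exact h
    rw [hres] at this
    push_cast at this
    exact absurd hwp this.ne
  rcases finite_or_infinite k with hf | hi
  · obtain ⟨j, y, hy⟩ := fin_pow hp hR0 hU0 hrp
    have h3 : ((Units.map (res : O →* k) (U * R ^ j) : kˣ) : k) = res U * res R ^ j := by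
      rw [map_mul, map_zpow, Units.val_mul, Units.val_zpow_eq_zpow_val]
      rfl
    have h4 : res ((U * R ^ j : Oˣ) : O) = res U * res R ^ j := h3
    have h5 : (((U * R ^ j : Oˣ) : O) : F) = ((u * r ^ j : Fˣ) : F) := by
      have h6 : ∀ X : Oˣ, ∀ x : Fˣ, ((X : O) : F) = x → ∀ j : ℤ,
          (((X ^ j : Oˣ) : O) : F) = ((x ^ j : Fˣ) : F) := by
        intro X x hx j
        have h7 : Units.map (O.subtype : O →* F) X = x := Units.ext hx
        have h8 : Units.map (O.subtype : O →* F) (X ^ j) = x ^ j := by rw [map_zpow, h7]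
        exact congrArg (fun z : Fˣ => (z : F)) h8
      rw [Units.val_mul, Units.val_mul]
      push_cast
      rw [h6 R r rfl j]
      push_cast
      rfl
    have h7 : w (((U * R ^ j : Oˣ) : O) : F) = 1 := by
      rw [h5]
      exact (hgood _).1 (good_mul C (good_u C) ((UG C).zpow_mem (good_r C) j))
    obtain ⟨c, hc⟩ := hL _ h7 ⟨y, by rw [h4]; exact hy⟩
    have h8 := hfin (u * r ^ j) ⟨c, by rw [hc, h5]⟩
    apply C.ne
    rw [map_mul, map_zpow] at h8
    rw [eq_inv_of_mul_eq_one_left h8]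
    exact inv_mem (zpow_mem (self_mem' C.ts _) j)
  · exact hrp (all_pow hp0 hpk hnegk haddk _)

end resid

end Pool.Agent.X269.EF
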