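import Pool.Agent.X269.EF.Unit

set_option autoImplicit false

/-! # Two blocks: the valuation ring -/

namespace Pool.Agent.X269.EF

open Pool.Agent.Y920.EP

/-- elements of the maximal ideal -/
def Mm {F : Type} [Field F] {A : Type} [CommGroup A] (φ : Fˣ →* A) (x : Fˣ) : Prop :=
  ¬ Good φ x ∧ ∃ v : Fˣ, Good φ v ∧ φ (v * x) ≠ 1 ∧ Sm φ (v * x)

section ring

variable {F : Type} [Field F] {A : Type} [CommGroup A] {φ : Fˣ →* A} {Nn : A → Subgroup A}
  {H : Subgroup A} {r s u v : Fˣ} (C : TB φ Nn H r s u v)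

include C

lemma mm_all {x : Fˣ} (hx : Mm φ x) {t : Fˣ} (ht : Good φ t) (h1 : φ (t * x) ≠ 1) :
    Sm φ (t * x) := by
  obtain ⟨-, w, hw, h2, h3⟩ := hx
  have := good_div C hw ht (w * x) h2 (by
    rw [map_mul, map_div, div_eq_mul_inv]
    intro e
    have e' := mul_left_cancel e
    exact h1 (by rw [map_mul, e', mul_inv_cancel]))
  have e : w * x / (w / t) = t * x := by
    rw [div_div_eq_mul_div, mul_comm w x, mul_assoc, mul_comm w t, ← mul_assoc,
      mul_div_cancel_right, mul_comm]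
  rw [e] at this
  exact this.1 h3

lemma exists_t (x : Fˣ) : ∃ t : Fˣ, Good φ t ∧ φ (t * x) ≠ 1 := by
  by_cases h : φ x = 1
  · exact ⟨r, good_r C, by rw [map_mul, h, mul_one]; exact C.p1.r1⟩
  · exact ⟨1, good_one, by rwa [one_mul]⟩

lemma not_good_mul {x t : Fˣ} (hx : ¬ Good φ x) (ht : Good φ t) : ¬ Good φ (t * x) := by
  intro h
  apply hx
  have := good_mul C (good_inv ht) h
  rwa [inv_mul_cancel_left] at this

omit C in
lemma not_good_inv {x : Fˣ} (hx : ¬ Good φ x) : ¬ Good φ x⁻¹ := by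
  intro h
  apply hx
  have := good_inv h
  rwa [inv_inv] at this

lemma tri {x : Fˣ} (hx : ¬ Good φ x) : Mm φ x ∨ Mm φ x⁻¹ := by
  obtain ⟨t, ht, h1⟩ := exists_t C x
  rcases tri1 C h1 (not_good_mul C hx ht) with h2 | h2
  · exact Or.inl ⟨hx, t, ht, h1, h2⟩
  · refine Or.inr ⟨not_good_inv hx, t⁻¹, good_inv ht, ?_, ?_⟩
    · rw [← mul_inv, map_inv]
      exact fun e => h1 (inv_eq_one.1 e)
    · rwa [← mul_inv]

lemma mm_excl {x : Fˣ} (hx : Mm φ x) (hx' : Mm φ x⁻¹) : False := by
  obtain ⟨t, ht, h1⟩ := exists_t C x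
  have h2 := mm_all C hx ht h1
  have h3 : φ (t⁻¹ * x⁻¹) ≠ 1 := by
    rw [← mul_inv, map_inv]
    exact fun e => h1 (inv_eq_one.1 e)
  have h4 := mm_all C hx' (good_inv ht) h3
  rw [← mul_inv] at h4
  exact not_both h1 h2 h4

lemma mm_good {x t : Fˣ} (hx : Mm φ x) (ht : Good φ t) : Mm φ (t * x) := by
  obtain ⟨t', ht', h1⟩ := exists_t C (t * x)
  refine ⟨not_good_mul C hx.1 ht, t', ht', h1, ?_⟩
  rw [← mul_assoc] at h1 ⊢
  exact mm_all C hx (good_mul C ht' ht) h1

lemma mm_sm {x : Fˣ} (hx : Mm φ x) (h1 : φ x ≠ 1) : Sm φ x := by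
  have := mm_all C hx good_one (by rwa [one_mul])
  rwa [one_mul] at this

lemma one_add_ne {x : Fˣ} (hx : ¬ Good φ x) : (1 : F) + x ≠ 0 := by
  intro e
  apply hx
  have : x = -1 := Units.ext (by rw [Units.val_neg, Units.val_one]; linear_combination e)
  rw [this]
  exact good_neg C

lemma good_sum {y z : Fˣ} (hy : φ y ∉ H) (hz : (z : F) = 1 + y) (hzy : φ z ≠ φ y) :
    Good φ z :=
  good_of C hy (C.ts.sum _ _ hz) fun _ hw => unit_sum C.ts hy hz hzy hw

/-- sums of one and a unit outside `H` -/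
lemma good_one_add {y z : Fˣ} (hg : Good φ y) (hy : φ y ∉ H) (hz : (z : F) = 1 + y) :
    Good φ z := by
  refine good_sum C hy hz fun e => ?_
  have h1 : φ y⁻¹ ≠ 1 := by
    rw [map_inv]
    exact fun e => hy ((inv_eq_one.1 e) ▸ one_mem _)
  refine not_sm C (good_inv hg) h1 ⟨z / y, ?_, by rw [map_div, e, div_self']⟩
  rw [Units.val_div_eq_div_val, hz, Units.val_inv_eq_inv_val]
  field_simp
  ring

/-- a good pair -/
lemma exists_pair : ∃ r' s' : Fˣ, (r' : F) + s' = 1 ∧ Good φ r' ∧ Good φ s' ∧ φ r' ∉ H ∧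
    φ (r' / s') ∉ H := by
  by_cases h : φ (r / s) ∈ H
  · refine ⟨r⁻¹, -(s / r), ?_, good_inv (good_r C), good_neg' C (good_div C (good_s C) (good_r C)),
      ?_, ?_⟩
    · have hs : (s : F) = 1 - r := by linear_combination C.p1.eq
      rw [Units.val_neg, Units.val_div_eq_div_val, Units.val_inv_eq_inv_val, hs]
      field_simp
      ring
    · rw [map_inv, inv_mem_iff]; exact C.rH
    · have e : r⁻¹ / -(s / r) = -s⁻¹ := by
        ext
        rw [Units.val_div_eq_div_val, Units.val_neg, Units.val_neg, Units.val_div_eq_div_val,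
          Units.val_inv_eq_inv_val, Units.val_inv_eq_inv_val]
        field_simp
      rw [e, phi_neg' C.ts, map_inv, inv_mem_iff]
      intro hs
      apply C.rH
      have := mul_mem h hs
      rwa [map_div, div_mul_cancel] at this
  · exact ⟨r, s, C.p1.eq, good_r C, good_s C, C.rH, h⟩

lemma one_add_mm {x : Fˣ} (hx : Mm φ x) : ∃ z : Fˣ, (z : F) = 1 + x ∧ Good φ z := by
  have key : ∀ x : Fˣ, Mm φ x → φ x ∉ H → ∃ z : Fˣ, (z : F) = 1 + x ∧ Good φ z ∧ φ z = 1 := by
    intro x hx hxH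
    have h1 : φ x ≠ 1 := fun e => hxH (e ▸ one_mem _)
    obtain ⟨z, hz, hz1⟩ := mm_sm C hx h1
    exact ⟨z, hz, good_sum C hxH hz (by rw [hz1]; exact fun e => h1 e.symm), hz1⟩
  by_cases hxH : φ x ∈ H
  · obtain ⟨r', s', h1, h2, h3, h4, h5⟩ := exists_pair C
    obtain ⟨z1, hz1, hg1, hc1⟩ := key (r'⁻¹ * x) (mm_good C hx (good_inv h2)) (by
      rw [map_mul, map_inv]
      exact fun h => h4 (inv_mem_iff.1 ((mul_mem_cancel_right hxH).1 h)))
    have hne := one_add_ne C hx.1
    have hr : (r' : F) * z1 = r' + x := by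
      rw [hz1, Units.val_mul, Units.val_inv_eq_inv_val]
      field_simp
    obtain ⟨z, hz⟩ : ∃ z : Fˣ, (z : F) = 1 + x := ⟨Units.mk0 _ hne, rfl⟩
    refine ⟨z, hz, ?_⟩
    have h6 : Good φ (z / s') := good_one_add C (y := r' * z1 / s')
      (good_div C (good_mul C h2 hg1) h3)
      (by rw [map_div, map_mul, hc1, mul_one, ← map_div]; exact h5) (by
        have hs : (s' : F) = 1 - r' := by linear_combination h1
        rw [Units.val_div_eq_div_val, Units.val_div_eq_div_val, Units.val_mul, hr, hz]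
        field_simp
        linear_combination -h1)
    have := good_mul C h6 h3
    rwa [div_mul_cancel] at this
  · obtain ⟨z, hz, hg, -⟩ := key x hx hxH
    exact ⟨z, hz, hg⟩

/-- one plus a small element has trivial class -/
lemma one_add_class {x z : Fˣ} (hx : Mm φ x) (hz : (z : F) = 1 + x) : φ z = 1 := by
  by_cases h1 : φ x = 1
  · by_contra hc
    obtain ⟨z', hz', hg⟩ := one_add_mm C hx
    have e : z' = z := Units.ext (hz'.trans hz.symm)
    rw [e] at hg
    refine not_sm C (good_neg' C hg) (by rwa [phi_neg' C.ts]) ⟨-x, ?_, by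
      rw [phi_neg' C.ts, h1]⟩
    rw [Units.val_neg, Units.val_neg, hz]
    ring
  · obtain ⟨z', hz', h2⟩ := mm_sm C hx h1
    rw [← h2]
    exact congrArg φ (Units.ext (hz.trans hz'.symm))

lemma mm_mul {x y : Fˣ} (hx : Mm φ x) (hy : Mm φ y) : Mm φ (x * y) := by
  have key : ∀ x y : Fˣ, Mm φ x → Mm φ y → φ (x * y) ≠ 1 → Mm φ (x * y) := by
    intro x y hx hy h1
    obtain ⟨z, hz, hgz⟩ := one_add_mm C hx
    have hz1 := one_add_class C hx hz
    obtain ⟨z2, hz2, hgz2⟩ := one_add_mm C hy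
    have h3 : Mm φ (z2 * x) := mm_good C hx hgz2
    obtain ⟨z3, hz3, hgz3⟩ := one_add_mm C h3
    have h31 := one_add_class C h3 hz3
    have h4 : Sm φ (x * y / z) := by
      refine ⟨z3 / z, ?_, by rw [map_div, h31, hz1, div_one]⟩
      rw [Units.val_div_eq_div_val, Units.val_div_eq_div_val, hz3, Units.val_mul, Units.val_mul,
        hz2]
      have hz' : (x : F) = z - 1 := by rw [hz]; ring
      rw [hz']
      field_simp
      ring
    have h5 : φ (x * y / z) ≠ 1 := by rwa [map_div, hz1, div_one]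
    refine ⟨fun hg => ?_, z⁻¹, good_inv hgz, ?_, ?_⟩
    · exact not_sm C (good_div C hg hgz) h5 h4
    · rwa [mul_comm, ← div_eq_mul_inv]
    · rwa [mul_comm, ← div_eq_mul_inv]
  by_cases h1 : φ (x * y) = 1
  · have h2 := key (r * x) y (mm_good C hx (good_r C)) hy (by
      rw [mul_assoc, map_mul, h1, mul_one]
      exact C.p1.r1)
    have h3 := mm_good C h2 (good_inv (good_r C))
    rwa [mul_assoc, inv_mul_cancel_left] at h3
  · exact key x y hx hy h1

/-- the nonzero elements of the ring -/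
def InO (φ : Fˣ →* A) (x : Fˣ) : Prop := Good φ x ∨ Mm φ x

lemma inO_mul {x y : Fˣ} (hx : InO φ x) (hy : InO φ y) : InO φ (x * y) := by
  rcases hx with hx | hx
  · rcases hy with hy | hy
    · exact Or.inl (good_mul C hx hy)
    · exact Or.inr (mm_good C hy hx)
  · rcases hy with hy | hy
    · right
      rw [mul_comm]
      exact mm_good C hx hy
    · exact Or.inr (mm_mul C hx hy)

lemma inO_or (x : Fˣ) : InO φ x ∨ InO φ x⁻¹ := by
  by_cases hx : Good φ x
  · exact Or.inl (Or.inl hx)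
  · rcases tri C hx with h | h
    · exact Or.inl (Or.inr h)
    · exact Or.inr (Or.inr h)

lemma inO_one_add {x z : Fˣ} (hx : InO φ x) (hz : (z : F) = 1 + x) : InO φ z := by
  rcases hx with hx | hx
  · by_cases hg : Good φ z
    · exact Or.inl hg
    rcases tri C hg with h | h
    · exact Or.inr h
    exfalso
    obtain ⟨z2, hz2, hg2⟩ := one_add_mm C (mm_good C h (good_neg C))
    apply hg
    have : z = x / z2 := by
      rw [eq_div_iff_mul_eq']
      ext
      rw [Units.val_mul, hz2, Units.val_mul, Units.val_neg, Units.val_one,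
        Units.val_inv_eq_inv_val]
      have h0 : (z : F) ≠ 0 := z.ne_zero
      field_simp
      rw [hz]
      ring
    rw [this]
    exact good_div C hx hg2
  · obtain ⟨z', hz', hg⟩ := one_add_mm C hx
    left
    rwa [show z = z' from Units.ext (hz.trans hz'.symm)]

lemma inO_add {x y z : Fˣ} (hx : InO φ x) (hy : InO φ y) (hz : (z : F) = x + y) : InO φ z := by
  have key : ∀ x y : Fˣ, InO φ y → InO φ (x / y) → (z : F) = x + y → InO φ z := by
    intro x y hy hxy hz
    have h1 : InO φ (z / y) := inO_one_add C hxy (by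
      rw [Units.val_div_eq_div_val, Units.val_div_eq_div_val, hz]
      field_simp
      ring)
    have := inO_mul C h1 hy
    rwa [div_mul_cancel] at this
  rcases inO_or C (x / y) with h | h
  · exact key x y hy h hz
  · rw [inv_div] at h
    exact key y x hx h (by rw [hz]; ring)

/-- the valuation ring -/
theorem exists_O : ∃ O : ValuationSubring F, ∀ x : Fˣ, (x : F) ∈ O ↔ InO φ x := by
  let O : ValuationSubring F :=
    { carrier := {x | x = 0 ∨ ∃ y : Fˣ, (y : F) = x ∧ InO φ y}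
      zero_mem' := Or.inl rfl
      one_mem' := Or.inr ⟨1, Units.val_one, Or.inl good_one⟩
      mul_mem' := by
        rintro a b (rfl | ⟨x, rfl, hx⟩) hb
        · left; rw [zero_mul]
        rcases hb with rfl | ⟨y, rfl, hy⟩
        · left; rw [mul_zero]
        · exact Or.inr ⟨x * y, Units.val_mul _ _, inO_mul C hx hy⟩
      add_mem' := by
        rintro a b (rfl | ⟨x, rfl, hx⟩) hb
        · rwa [zero_add]
        rcases hb with rfl | ⟨y, rfl, hy⟩
        · right; rw [add_zero]; exact ⟨x, rfl, hx⟩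
        · by_cases h : (x : F) + y = 0
          · exact Or.inl h
          · exact Or.inr ⟨Units.mk0 _ h, rfl, inO_add C hx hy rfl⟩
      neg_mem' := by
        rintro a (rfl | ⟨x, rfl, hx⟩)
        · left; rw [neg_zero]
        · refine Or.inr ⟨-x, Units.val_neg _, ?_⟩
          rw [show -x = (-1) * x by simp]
          exact inO_mul C (Or.inl (good_neg C)) hx
      mem_or_inv_mem' := by
        intro a
        by_cases ha : a = 0
        · exact Or.inl (Or.inl ha)
        · rcases inO_or C (Units.mk0 a ha) with h | h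
          · exact Or.inl (Or.inr ⟨_, rfl, h⟩)
          · exact Or.inr (Or.inr ⟨_, by rw [Units.val_inv_eq_inv_val, Units.val_mk0], h⟩) }
  refine ⟨O, fun x => ⟨?_, fun hx => Or.inr ⟨x, rfl, hx⟩⟩⟩
  rintro (h | ⟨y, hy, h⟩)
  · exact absurd h x.ne_zero
  · rwa [Units.ext hy] at h

lemma good_iff {O : ValuationSubring F} (hO : ∀ x : Fˣ, (x : F) ∈ O ↔ InO φ x) (x : Fˣ) :
    Good φ x ↔ (x : F) ∈ O ∧ ((x⁻¹ : Fˣ) : F) ∈ O := by
  rw [hO, hO]
  constructor
  · exact fun h => ⟨Or.inl h, Or.inl (good_inv h)⟩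
  · rintro ⟨h | h, h'⟩
    · exact h
    · rcases h' with h' | h'
      · have := good_inv h'
        rwa [inv_inv] at this
      · exact (mm_excl C h h').elim

lemma mm_iff {O : ValuationSubring F} (hO : ∀ x : Fˣ, (x : F) ∈ O ↔ InO φ x) (x : Fˣ) :
    Mm φ x ↔ (x : F) ∈ O ∧ ((x⁻¹ : Fˣ) : F) ∉ O := by
  constructor
  · intro h
    refine ⟨(hO x).2 (Or.inr h), fun h' => ?_⟩
    exact h.1 ((good_iff C hO x).2 ⟨(hO x).2 (Or.inr h), h'⟩)
  · rintro ⟨h1, h2⟩
    rcases (hO x).1 h1 with h | h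
    · exact absurd ((good_iff C hO x).1 h).2 h2
    · exact h

end ring

end Pool.Agent.X269.EF
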