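import Pool.Agent.X269.EF.Calc

set_option autoImplicit false

/-! # Two blocks: the group of units -/

namespace Pool.Agent.X269.EF

open Pool.Agent.Y920.EP

/-- division by `x` preserves small elements -/
def Good {F : Type} [Field F] {A : Type} [CommGroup A] (φ : Fˣ →* A) (x : Fˣ) : Prop :=
  ∀ w : Fˣ, φ w ≠ 1 → φ w ≠ φ x → (Sm φ w ↔ Sm φ (w / x))

/-- two equations whose classes lie in different norm groups -/
structure TB {F : Type} [Field F] {A : Type} [CommGroup A] (φ : Fˣ →* A) (Nn : A → Subgroup A)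
    (H : Subgroup A) (r s u v : Fˣ) : Prop where
  ts : TS φ Nn H
  p1 : NP φ r s
  p2 : NP φ u v
  rH : φ r ∉ H
  uH : φ u ∉ H
  ne : φ u ∉ Nn (φ r)

section units

variable {F : Type} [Field F] {A : Type} [CommGroup A] {φ : Fˣ →* A} {Nn : A → Subgroup A}
  {H : Subgroup A} {r s u v : Fˣ} (C : TB φ Nn H r s u v)

include C

/-- an element in another block than `N(a)` -/
lemma other {a : A} (ha : a ∉ H) : ∃ t : Fˣ, φ t ∉ Nn a ∧ φ t ∉ H ∧
    (∀ w : Fˣ, φ w ∉ Nn (φ t) → (Sm φ w ↔ Sm φ (w / t))) ∧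
    ∀ c, c ∈ Nn a → c ∈ Nn (φ t) → c = 1 := by
  obtain ⟨t, h1, h2, h3⟩ : ∃ t : Fˣ, φ t ∉ Nn a ∧ φ t ∉ H ∧
      (∀ w : Fˣ, φ w ∉ Nn (φ t) → (Sm φ w ↔ Sm φ (w / t))) := by
    by_cases h1 : φ r ∈ Nn a
    · refine ⟨u, ?_, C.uH, fun w hw => (six C.ts C.p2 C.uH hw).1⟩
      intro h2
      have h3 : Nn a ≤ Nn (φ r) := C.ts.trans _ C.rH a (C.ts.symm _ _ h1)
        (fun e => ha (e ▸ one_mem _))
      exact C.ne (h3 h2)
    · exact ⟨r, h1, C.rH, fun w hw => (six C.ts C.p1 C.rH hw).1⟩
  refine ⟨t, h1, h2, h3, fun c hc hct => ?_⟩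
  by_contra hc1
  exact h1 (C.ts.trans a ha c hc hc1 (C.ts.symm _ _ hct))

/-- invariance outside one block is enough -/
lemma good_of {x : Fˣ} {a : A} (ha : a ∉ H) (hx : φ x ∈ Nn a)
    (hi : ∀ w : Fˣ, φ w ∉ Nn a → (Sm φ w ↔ Sm φ (w / x))) : Good φ x := by
  obtain ⟨t, h1, -, h3, h4⟩ := other C ha
  intro w hw hwx
  by_cases hwa : φ w ∈ Nn a
  · have h5 : φ w ∉ Nn (φ t) := fun h => hw (h4 _ hwa h)
    have h6 : φ (w / t) ∉ Nn a := by
      rw [map_div]
      intro h
      have := div_mem hwa h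
      rw [div_div_cancel] at this
      exact h1 this
    have h7 : φ (w / x) ∉ Nn (φ t) := by
      intro h
      rw [map_div] at h
      exact hwx (div_eq_one.1 (h4 _ (div_mem hwa hx) h))
    rw [h3 w h5, hi _ h6, h3 _ h7, div_right_comm]
  · exact hi w hwa

lemma good_r : Good φ r := good_of C C.rH (self_mem' C.ts _) fun _ hw => (six C.ts C.p1 C.rH hw).1

lemma good_s : Good φ s := good_of C C.rH (C.p1.mem C.ts) fun _ hw => (six C.ts C.p1 C.rH hw).2.1

lemma good_u : Good φ u := good_of C C.uH (self_mem' C.ts _) fun _ hw => (six C.ts C.p2 C.uH hw).1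

lemma good_neg : Good φ (-1) := good_of C C.rH (by rw [C.ts.neg]; exact one_mem _)
  fun _ hw => (six C.ts C.p1 C.rH hw).2.2.1

/-- the classes of `r` and `u` differ strongly -/
lemma avoid (g : A) (hg : g ≠ 1) : ∃ t : Fˣ, Good φ t ∧ φ t ≠ 1 ∧ φ t ≠ g ∧ φ t ≠ g⁻¹ := by
  have hu1 : φ u ≠ 1 := C.p2.r1
  by_cases h1 : φ r = g ∨ φ r = g⁻¹
  · have hgr : g ∈ Nn (φ r) := by
      rcases h1 with h1 | h1
      · rw [← h1]; exact self_mem' C.ts _
      · have : g = (φ r)⁻¹ := by rw [h1, inv_inv]
        rw [this]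
        exact inv_mem (self_mem' C.ts _)
    refine ⟨u, good_u C, hu1, fun h => C.ne (h ▸ hgr), fun h => C.ne (h ▸ inv_mem hgr)⟩
  · rw [not_or] at h1
    exact ⟨r, good_r C, C.p1.r1, h1.1, h1.2⟩

lemma good_mul {x y : Fˣ} (hx : Good φ x) (hy : Good φ y) : Good φ (x * y) := by
  intro w hw hwxy
  by_cases h1 : φ w = φ x
  · by_cases h2 : φ w = φ y
    · obtain ⟨t, ht, t1, t2, t3⟩ := avoid C (φ w) hw
      have e1 := ht w hw (fun e => t2 e.symm)
      have e2 := hx (w / t) (by rw [map_div]; exact fun e => t2 (div_eq_one.1 e).symm) (by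
        rw [map_div, ← h1]
        intro e
        exact t1 (by rwa [div_eq_self] at e))
      have e3 := hy (w / t / x) (by
        rw [map_div, map_div, ← h1, div_right_comm, div_self', one_div]
        exact fun e => t1 (inv_eq_one.1 e)) (by
        rw [map_div, map_div, ← h1, div_right_comm, div_self', one_div, ← h2]
        intro e
        exact t3 (by rw [← e, inv_inv]))
      have e4 := ht (w / (x * y)) (by
        rw [map_div]
        exact fun e => hwxy (div_eq_one.1 e)) (by
        rw [map_div, map_mul, ← h1, ← h2, ← div_div, div_self', one_div]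
        exact fun e => t3 e.symm)
      rw [e1, e2, e3, e4]
      have : w / t / x / y = w / (x * y) / t := by
        rw [div_right_comm w t x, div_right_comm (w / x) t y, div_div w x y]
      rw [this]
    · have e1 := hy w hw h2
      have e2 := hx (w / y) (by rw [map_div]; exact fun e => h2 (div_eq_one.1 e)) (by
        rw [map_div]
        intro e
        exact hwxy (by rw [map_mul, ← e, div_mul_cancel]))
      rw [e1, e2, div_div, mul_comm y x]
  · have e1 := hx w hw h1
    have e2 := hy (w / x) (by rw [map_div]; exact fun e => h1 (div_eq_one.1 e)) (by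
      rw [map_div]
      intro e
      exact hwxy (by rw [map_mul, ← e, mul_div_cancel]))
    rw [e1, e2, div_div]

omit C in
lemma good_inv {x : Fˣ} (hx : Good φ x) : Good φ x⁻¹ := by
  intro w hw hwx
  rw [div_inv_eq_mul]
  have := hx (w * x) (by
    rw [map_mul]
    intro e
    exact hwx (by rw [map_inv, eq_inv_of_mul_eq_one_left e])) (by
    rw [map_mul]
    exact fun e => hw (by rwa [mul_eq_right] at e))
  rw [mul_div_cancel_right] at this
  exact this.symm

omit C in
lemma good_one : Good φ 1 := by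
  intro w _ _
  rw [div_one]

/-- the group of units -/
def UG : Subgroup Fˣ where
  carrier := {x | Good φ x}
  one_mem' := good_one
  mul_mem' := fun hx hy => good_mul C hx hy
  inv_mem' := fun hx => good_inv hx

omit C in
lemma good_div (C : TB φ Nn H r s u v) {x y : Fˣ} (hx : Good φ x) (hy : Good φ y) :
    Good φ (x / y) := by
  rw [div_eq_mul_inv]
  exact good_mul C hx (good_inv hy)

lemma good_neg' {x : Fˣ} (hx : Good φ x) : Good φ (-x) := by
  rw [show -x = (-1) * x by simp]
  exact good_mul C (good_neg C) hx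

/-- no unit of nontrivial class is small -/
lemma not_sm {x : Fˣ} (hx : Good φ x) (h1 : φ x ≠ 1) : ¬ Sm φ x := by
  have hr1 := C.p1.r1
  have h0 : ¬ Sm φ (-r⁻¹) := by
    rintro ⟨z, hz, hz1⟩
    have : z = -(s / r) := by
      ext
      rw [hz, Units.val_neg, Units.val_neg, Units.val_div_eq_div_val, Units.val_inv_eq_inv_val]
      have hs : (s : F) = 1 - r := by linear_combination C.p1.eq
      rw [hs]
      field_simp
      ring
    rw [this, phi_neg' C.ts, map_div, div_eq_one] at hz1
    exact C.p1.rs hz1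
  have hg : Good φ (-r⁻¹) := good_neg' C (good_inv (good_r C))
  have hc : φ (-r⁻¹) = (φ r)⁻¹ := by rw [phi_neg' C.ts, map_inv]
  have := good_div C hg hx (-r⁻¹) (by rw [hc]; exact fun e => hr1 (inv_eq_one.1 e)) (by
    rw [map_div]
    intro e
    exact h1 (by rwa [eq_comm, div_eq_self] at e))
  rw [div_div_cancel] at this
  rwa [this] at h0

omit C in
/-- `x` and `x⁻¹` are not both small -/
lemma not_both {x : Fˣ} (h1 : φ x ≠ 1) (hx : Sm φ x) (hx' : Sm φ x⁻¹) : False := by
  obtain ⟨z, hz, hz1⟩ := hx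
  obtain ⟨z', hz', hz1'⟩ := hx'
  apply h1
  have : z = x * z' := by
    ext
    rw [Units.val_mul, hz', hz, Units.val_inv_eq_inv_val]
    field_simp
    ring
  rw [this, map_mul, hz1', mul_one] at hz1
  exact hz1

/-- trichotomy, first form -/
lemma tri1 {x : Fˣ} (h1 : φ x ≠ 1) (hx : ¬ Good φ x) : Sm φ x ∨ Sm φ x⁻¹ := by
  -- outside `H`
  have key : ∀ x : Fˣ, φ x ∉ H → ¬ Good φ x → Sm φ x ∨ Sm φ x⁻¹ := by
    intro x hxH hx
    by_contra hc
    rw [not_or] at hc
    have h1 : φ x ≠ 1 := fun e => hxH (e ▸ one_mem _)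
    have hne : (1 : F) + x ≠ 0 := by
      have := add_ne C.ts.neg (x := 1) (y := x) (by rw [map_one]; exact fun e => h1 e.symm)
      rwa [Units.val_one] at this
    obtain ⟨z, hz⟩ : ∃ z : Fˣ, (z : F) = 1 + x := ⟨Units.mk0 _ hne, rfl⟩
    have hp : NP φ (-x) z := by
      refine ⟨by rw [Units.val_neg, hz]; ring, by rw [phi_neg' C.ts]; exact h1,
        fun e => hc.1 ⟨z, hz, e⟩, ?_⟩
      rw [phi_neg' C.ts]
      intro e
      refine hc.2 ⟨z / x, ?_, by rw [map_div, e, div_self']⟩
      rw [Units.val_div_eq_div_val, hz, Units.val_inv_eq_inv_val]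
      field_simp
      ring
    apply hx
    refine good_of C hxH (self_mem' C.ts _) fun w hw => ?_
    have := (six C.ts hp (by rw [phi_neg' C.ts]; exact hxH) (w := w)
      (by rw [phi_neg' C.ts]; exact hw)).2.2.2
    rwa [neg_neg] at this
  by_cases hxH : φ x ∈ H
  · have h2 : φ (x * r) ∉ H := by
      rw [map_mul]
      intro h
      exact C.rH ((mul_mem_cancel_left hxH).1 h)
    have h3 : ¬ Good φ (x * r) := by
      intro h
      apply hx
      have := good_div C h (good_r C)
      rwa [mul_div_cancel_right] at this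
    rcases key _ h2 h3 with h4 | h4
    · left
      have := good_r C (x * r) (fun e => h2 (e ▸ one_mem _)) (by
        rw [map_mul]
        exact fun e => h1 (by rwa [mul_eq_right] at e))
      rw [mul_div_cancel_right] at this
      exact this.1 h4
    · right
      have := good_inv (good_r C) (x * r)⁻¹ (by
        rw [map_inv]
        intro e
        exact h2 ((inv_eq_one.1 e) ▸ one_mem _)) (by
        rw [map_inv, map_mul, map_inv, mul_inv]
        exact fun e => h1 (inv_eq_one.1 (by rwa [mul_eq_right] at e)))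
      rw [div_inv_eq_mul, mul_inv, mul_assoc, inv_mul_cancel, mul_one] at this
      rw [mul_inv] at h4
      exact this.1 h4
  · exact key x hxH hx

end units

end Pool.Agent.X269.EF
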